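import Pool.Agent.Helper8.PR.Model

/-!
# Sparse comparisons in real register machines

Definitions only. The machines are those of `Pool/Agent/Helper8/PR/Model.lean`.
-/

set_option autoImplicit false

namespace Pool.Agent.Helper21.MG

open Pool.Agent.Helper22.ETModel
open Pool.Agent.Helper8.PR

variable {n D r R : ℕ}

/-- The polynomial is an integer affine form in at most `s` weights, with coefficients of absolute
value at most `K` and constant term of absolute value at most `B`. -/
def SparseForm (s K B : ℕ) (p : WPol n) : Prop :=
  ∃ (z : ℤ) (γ : Fin s → ℤ) (v : Fin s → Fin n × Fin n), |z| ≤ B ∧ (∀ l, |γ l| ≤ K) ∧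
    p = MvPolynomial.C (z : ℝ) + ∑ l, MvPolynomial.C (γ l : ℝ) * MvPolynomial.X (v l)

/-- The restrictions, on all valid instances of Exact Triangle (`ValidC 300`):
* for fixed flags and random bits, at every time at most `C` different configurations occur; a
  configuration consists of the memory and the polynomials in the weights which are the contents
  of the registers;
* the polynomials in the weights asked for their signs are integer affine forms in at most `s`
  weights, with coefficients at most `K` and constant term at most `B` in absolute value (their
  number is not restricted);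
* the polynomials in the weights in zero tests have total degree at most `a` (their number is not
  restricted). -/
structure WithinS (A : Mach n D r R) (C s K B a : ℕ) : Prop where
  space : ∀ fl ρ, ∀ t ≤ D, ∃ S : Finset (ℕ × (Fin r → WPol n)), S.card ≤ C ∧
    ∀ I : Inst n, ValidC 300 I → I.flag = fl → ((A.conf I ρ t).1, A.sym I ρ t) ∈ S
  sign : ∀ (I : Inst n) ρ, ValidC 300 I → ∀ t < D, ∀ f,
      A.ask I.flag ρ t (A.conf I ρ t).1 = .sign f →
        SparseForm s K B (sub (A.sym I ρ (t + 1)) f)
  zero : ∀ (I : Inst n) ρ, ValidC 300 I → ∀ t < D, ∀ f,
      A.ask I.flag ρ t (A.conf I ρ t).1 = .zero f →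
        (sub (A.sym I ρ (t + 1)) f).totalDegree ≤ a

end Pool.Agent.Helper21.MG
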