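import Pool.Agent.Helper21.MG.Defs
import Pool.Agent.Helper8.PR.Sim
import Pool.Agent.Helper8.ZT.Final
import Pool.Agent.Helper7.ZT.Asym3

/-!
# Real register machines with sparse comparisons
-/

set_option autoImplicit false

namespace Pool.Agent.Helper21.MG

open Finset
open Pool.Agent.Helper22.ETModel Pool.Agent.Helper22.TSModel
open Pool.Agent.Helper23.SP (SparseQ)
open Pool.Agent.Helper8.ZT (MixQ mixFam)
open Pool.Agent.Helper8.PR

variable {n D r R C s K B a : ℕ}

/-- The sparse form as a query. -/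
lemma exists_query {p : WPol n} (hp : SparseForm s K B p) :
    ∃ q : SparseQ n s K B, ∀ I : Inst n, evalP p I = (q.val I : ℝ) := by
  obtain ⟨z, γ, v, hz, hγ, rfl⟩ := hp
  refine ⟨⟨v, γ, z, hγ, hz⟩, fun I => ?_⟩
  unfold evalP SparseQ.val
  rw [map_add, map_sum, MvPolynomial.eval_C]
  push_cast
  congr 1
  refine sum_congr rfl fun l _ => ?_
  rw [map_mul, MvPolynomial.eval_C, MvPolynomial.eval_X]

open Classical in
/-- The query after the substitution. -/
noncomputable def qryS (s K B a : ℕ) (x : Fin r → WPol n) : Qry n r → MixQ n s K B a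
  | .sign f => if h : SparseForm s K B (sub x f) then .sign (exists_query h).choose
      else .zero 0 (by simp)
  | .zero f => if h : (sub x f).totalDegree ≤ a then .zero (sub x f) h else .zero 0 (by simp)

/-- The simulation. -/
noncomputable def simS (A : Mach n D r R) (s K B a : ℕ)
    (voc : (Fin n → Fin n → Bool) → (Fin R → Bool) → ℕ → Fin C → ℕ × (Fin r → WPol n))
    (num : (Fin n → Fin n → Bool) → (Fin R → Bool) → ℕ → ℕ × (Fin r → WPol n) → Fin C) :
    Alg n D C R (MixQ n s K B a) SignType where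
  init fl ρ := num fl ρ 0 (A.init fl ρ, fun _ => 0)
  ask fl ρ t u := qryS s K B a (nsy A fl ρ t (voc fl ρ t u)) (A.ask fl ρ t (voc fl ρ t u).1)
  next fl ρ t u x := num fl ρ (t + 1) (A.next fl ρ t (voc fl ρ t u).1 x,
    nsy A fl ρ t (voc fl ρ t u))
  out fl ρ u := A.out fl ρ (voc fl ρ D u).1

theorem simS_state (A : Mach n D r R) (hA : WithinS A C s K B a)
    (voc : (Fin n → Fin n → Bool) → (Fin R → Bool) → ℕ → Fin C → ℕ × (Fin r → WPol n))
    (num : (Fin n → Fin n → Bool) → (Fin R → Bool) → ℕ → ℕ × (Fin r → WPol n) → Fin C)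
    (hv : ∀ fl ρ, ∀ t ≤ D, ∀ I : Inst n, ValidC 300 I → I.flag = fl →
      voc fl ρ t (num fl ρ t ((A.conf I ρ t).1, A.sym I ρ t)) = ((A.conf I ρ t).1, A.sym I ρ t))
    (I : Inst n) (hI : ValidC 300 I) (ρ : Fin R → Bool) (t : ℕ) (ht : t ≤ D) :
    (simS A s K B a voc num).state (mixFam n s K B a) I ρ t =
      num I.flag ρ t ((A.conf I ρ t).1, A.sym I ρ t) := by
  induction t with
  | zero => rfl
  | succ t ih =>
    have ih' := ih (by omega)
    have hvt := hv I.flag ρ t (by omega) I hI rfl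
    have hans : (mixFam n s K B a).ans (qryS s K B a
        (nsy A I.flag ρ t ((A.conf I ρ t).1, A.sym I ρ t))
        (A.ask I.flag ρ t (A.conf I ρ t).1)) I =
        (A.ask I.flag ρ t (A.conf I ρ t).1).ans I (A.conf I ρ (t + 1)).2 := by
      have hn : nsy A I.flag ρ t ((A.conf I ρ t).1, A.sym I ρ t) = A.sym I ρ (t + 1) := rfl
      rw [hn]
      rcases hq : A.ask I.flag ρ t (A.conf I ρ t).1 with f | f
      · have h3 := hA.sign I ρ hI t (by omega) f hq
        unfold qryS
        simp only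
        rw [dif_pos h3]
        show SignType.sign ((exists_query h3).choose.val I) =
          SignType.sign (f.val I (A.conf I ρ (t + 1)).2)
        have h4 := (exists_query h3).choose_spec I
        rw [eval_sub, conf_sym] at h4
        rw [h4]
        exact (sign_intCast _).symm
      · have h3 := hA.zero I ρ hI t (by omega) f hq
        unfold qryS
        simp only
        rw [dif_pos h3]
        show (if evalP (sub (A.sym I ρ (t + 1)) f) I = 0 then (0 : SignType) else 1) =
          if f.val I (A.conf I ρ (t + 1)).2 = 0 then 0 else 1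
        rw [eval_sub, conf_sym]
    have h1 : (simS A s K B a voc num).state (mixFam n s K B a) I ρ (t + 1) =
        (simS A s K B a voc num).next I.flag ρ t
          ((simS A s K B a voc num).state (mixFam n s K B a) I ρ t)
          ((mixFam n s K B a).ans ((simS A s K B a voc num).ask I.flag ρ t
            ((simS A s K B a voc num).state (mixFam n s K B a) I ρ t)) I) := rfl
    rw [h1, ih']
    show num I.flag ρ (t + 1)
      (A.next I.flag ρ t (voc I.flag ρ t (num I.flag ρ t ((A.conf I ρ t).1, A.sym I ρ t))).1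
        ((mixFam n s K B a).ans (qryS s K B a
          (nsy A I.flag ρ t (voc I.flag ρ t (num I.flag ρ t ((A.conf I ρ t).1, A.sym I ρ t))))
          (A.ask I.flag ρ t
            (voc I.flag ρ t (num I.flag ρ t ((A.conf I ρ t).1, A.sym I ρ t))).1)) I),
        nsy A I.flag ρ t (voc I.flag ρ t (num I.flag ρ t ((A.conf I ρ t).1, A.sym I ρ t)))) = _
    rw [hvt]
    show num I.flag ρ (t + 1)
      (A.next I.flag ρ t (A.conf I ρ t).1
        ((mixFam n s K B a).ans (qryS s K B a
          (nsy A I.flag ρ t ((A.conf I ρ t).1, A.sym I ρ t))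
          (A.ask I.flag ρ t (A.conf I ρ t).1)) I), A.sym I ρ (t + 1)) = _
    rw [hans]
    rfl

/-- The instance without edges. -/
private def zI (n : ℕ) : Inst n := ⟨fun _ _ => false, fun _ _ => 0⟩

private lemma zI_valid (n c : ℕ) : ValidC c (zI n) := by
  refine ⟨fun _ _ => rfl, fun _ => rfl, fun _ _ => rfl, fun i j => ?_⟩
  show |(0 : ℤ)| ≤ _
  rw [abs_zero]
  positivity

lemma WithinS.one_le {A : Mach n D r R} (hA : WithinS A C s K B a) : 1 ≤ C := by
  obtain ⟨S, hS, hS'⟩ := hA.space (zI n).flag (fun _ => false) 0 (Nat.zero_le _)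
  have := hS' (zI n) (zI_valid n 300) rfl
  exact (Finset.card_pos.2 ⟨_, this⟩).trans_le hS

/-- A machine with registers is simulated by an algorithm without registers. -/
theorem simulate (A : Mach n D r R) (hA : WithinS A C s K B a) (hdec : A.Decides 300) :
    ∃ A' : Alg n D C R (MixQ n s K B a) SignType, A'.Decides (mixFam n s K B a) := by
  classical
  have hC := hA.one_le
  have hex : ∀ fl ρ t, ∃ (voc : Fin C → ℕ × (Fin r → WPol n))
      (num : ℕ × (Fin r → WPol n) → Fin C), t ≤ D → ∀ I : Inst n, ValidC 300 I → I.flag = fl →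
        voc (num ((A.conf I ρ t).1, A.sym I ρ t)) = ((A.conf I ρ t).1, A.sym I ρ t) := by
    intro fl ρ t
    by_cases ht : t ≤ D
    · obtain ⟨S, hS, hS'⟩ := hA.space fl ρ t ht
      obtain ⟨voc, num, h⟩ := exists_num (0, fun _ => 0) hC S hS
      exact ⟨voc, num, fun _ I hI hfl => h _ (hS' I hI hfl)⟩
    · exact ⟨fun _ => (0, fun _ => 0), fun _ => ⟨0, hC⟩, fun h => absurd h ht⟩
  choose voc num hvn using hex
  have hv : ∀ fl ρ, ∀ t ≤ D, ∀ I : Inst n, ValidC 300 I → I.flag = fl →
      voc fl ρ t (num fl ρ t ((A.conf I ρ t).1, A.sym I ρ t)) =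
        ((A.conf I ρ t).1, A.sym I ρ t) :=
    fun fl ρ t ht I hI hfl => hvn fl ρ t ht I hI hfl
  refine ⟨simS A s K B a voc num, ?_⟩
  intro I hI
  refine (hdec I hI).trans (Nat.mul_le_mul_left _ (card_le_card ?_))
  intro ρ hρ
  rw [mem_filter] at hρ ⊢
  refine ⟨mem_univ _, ?_⟩
  have h1 : (simS A s K B a voc num).output (mixFam n s K B a) I ρ = A.output I ρ := by
    show A.out I.flag ρ
      (voc I.flag ρ D ((simS A s K B a voc num).state (mixFam n s K B a) I ρ D)).1 = _
    rw [simS_state A hA voc num hv I hI ρ D le_rfl, hv I.flag ρ D le_rfl I hI rfl]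
    rfl
  rw [h1]
  exact hρ.2

lemma SparseForm.mono {K' : ℕ} (h : K ≤ K') {p : WPol n} (hp : SparseForm s K B p) :
    SparseForm s K' B p := by
  obtain ⟨z, γ, v, hz, hγ, rfl⟩ := hp
  exact ⟨z, γ, v, hz, fun l => (hγ l).trans (by exact_mod_cast h), rfl⟩

/-- Time times space for real register machines with sparse comparisons. -/
theorem asymSparse (s b : ℕ) (hs : 1 ≤ s) (σ ε : ℝ) (hσ : 0 ≤ σ) (hε : 0 < ε)
    (hgap : 2 * (s : ℝ) + b + 2 * s * σ * (1 / ε + 1) < 300) :
    ∃ δ : ℝ, 0 < δ ∧ ∃ n₀ : ℕ, ∀ n : ℕ, n₀ ≤ n → ∀ K a C D r R : ℕ,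
      (K : ℝ) ≤ (n : ℝ) ^ δ → (a : ℝ) ≤ (n : ℝ) ^ δ →
      (a = 0 ∨ 4 * (s : ℝ) + b + 7 + 2 * s * σ * (1 / ε + 1) < 300) →
      Real.logb 2 C ≤ (n : ℝ) ^ σ →
      ∀ A : Mach n D r R, WithinS A C s K (n ^ b) a → A.Decides 300 →
        (n : ℝ) ^ (3 - ε) ≤ D * (1 + Real.logb 2 C) := by
  obtain ⟨δ, hδ, n₀, hmain⟩ := Pool.Agent.Helper7.ZT.asymptotic3_of
    (fun _ _ _ _ _ _ _ _ _ _ _ hn hs hK hk hsx hWx hN hsz A hA =>
      Pool.Agent.Helper8.ZT.quantitative3 hn hs hK hk hsx hWx hN hsz A hA) s b hs σ ε hσ hε hgap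
  refine ⟨δ, hδ, max n₀ 1, fun n hn K a C D r R hK ha hab hC A hA hdec => ?_⟩
  have hn1 : 1 ≤ n := (le_max_right _ _).trans hn
  have hA' : WithinS A C s (max K 1) (n ^ b) a :=
    ⟨hA.space, fun I ρ hI t ht f hf => (hA.sign I ρ hI t ht f hf).mono (le_max_left _ _), hA.zero⟩
  obtain ⟨A', hA2⟩ := simulate A hA' hdec
  refine hmain n ((le_max_left _ _).trans hn) (max K 1) a D C R (le_max_right _ _) ?_ ha hab hC
    A' hA2
  rw [Nat.cast_max, Nat.cast_one]
  exact max_le hK (Real.one_le_rpow (by exact_mod_cast hn1) hδ.le)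

end Pool.Agent.Helper21.MG
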